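import Pool.Agent.Lib_helper41.TK.W.TL
import Pool.Agent.Lib_helper41.TK.W.TJ
import Pool.Agent.Lib_helper68.KSLF.BUL

/-! TK, block TM. -/

set_option autoImplicit false

namespace Pool.Agent.TK

open Pool.Agent.LEV Pool.Agent.LVB Pool.Agent.KSL
open Pool.Agent.LK (PQ)
open Pool.Agent.FG61 (mu phi cc ff AA Lam)
open Complex MeasureTheory Filter Topology UpperHalfPlane ModularGroup ProbabilityTheory
open scoped MatrixGroups Modular ENNReal ModularForm ComplexConjugate ContDiff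

theorem tm_QI {q X k : ℕ} : k ∈ QI q X ↔ (1 ≤ k ∧ k ≤ X) ∧ k.primeFactors ⊆ q.primeFactors := by
  unfold QI
  rw [Finset.mem_filter, Finset.mem_Icc]

theorem tm_hasSum {q : ℕ} (hq : 1 ≤ q) (X : ℕ) (F : ℕ → ℕ → ℝ)
    (hF : ∀ k ∈ QI q X, Summable (F k)) (hF0 : ∀ k m, ¬ m.Coprime q → F k m = 0)
    (hF00 : ∀ k, F k 0 = 0) (G : ℕ → ℝ) (hG0 : G 0 = 0)
    (hG : ∀ n, 1 ≤ n → G n = if qs q n ∈ QI q X then F (qs q n) (qr q n) else 0) :
    HasSum G (∑ k ∈ QI q X, ∑' m, F k m) := by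
  have e1 : ∀ k ∈ QI q X, HasSum (fun n => if k ∣ n then F k (n / k) else 0) (∑' m, F k m) := by
    intro k hk
    have hk1 : 1 ≤ k := (tm_QI.1 hk).1.1
    have hinj : Function.Injective (fun m : ℕ => k * m) := by
      intro m m' h
      exact Nat.eq_of_mul_eq_mul_left (by omega) h
    have hsupp : ∀ x ∉ Set.range (fun m : ℕ => k * m),
        (fun n => if k ∣ n then F k (n / k) else 0) x = 0 := by
      intro x hx
      have : ¬ k ∣ x := by
        rintro ⟨m, hm⟩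
        exact hx ⟨m, hm.symm⟩
      simp only [this, if_false]
    rw [← hinj.hasSum_iff hsupp]
    have hcomp : ((fun n => if k ∣ n then F k (n / k) else 0) ∘ fun m : ℕ => k * m) = F k := by
      funext m
      simp only [Function.comp, dvd_mul_right, if_true]
      rw [Nat.mul_div_cancel_left m (by omega)]
    rw [hcomp]
    exact (hF k hk).hasSum
  have e2 := hasSum_sum e1
  have e3 : G = fun n => ∑ k ∈ QI q X, (if k ∣ n then F k (n / k) else 0) := by
    funext n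
    rcases Nat.eq_zero_or_pos n with hn | hn
    · subst hn
      rw [hG0]
      symm
      apply Finset.sum_eq_zero
      intro k hk
      simp [hF00]
    · obtain ⟨r1, r2, r3, r4, r5⟩ := qs_qr (q := q) (m := n) hq hn
      have hother : ∀ k ∈ QI q X, k ≠ qs q n → (if k ∣ n then F k (n / k) else 0) = 0 := by
        intro k hk hne
        split_ifs with hd
        · by_contra hF1
          have hc : (n / k).Coprime q := by
            by_contra hc
            exact hF1 (hF0 k _ hc)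
          obtain ⟨m, hm⟩ := hd
          have hk1 : 1 ≤ k := (tm_QI.1 hk).1.1
          have hm1 : 1 ≤ m := by
            rcases Nat.eq_zero_or_pos m with h | h
            · subst h; omega
            · exact h
          have hdiv : n / k = m := by rw [hm]; exact Nat.mul_div_cancel_left m (by omega)
          rw [hdiv] at hc
          obtain ⟨s1, -⟩ := qs_mul (q := q) (k := k) (d := m) hq hk1 (tm_QI.1 hk).2 hm1 hc
          rw [← hm] at s1
          exact hne s1.symm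
        · rfl
      rw [hG n hn]
      split_ifs with hqs
      · rw [Finset.sum_eq_single_of_mem (qs q n) hqs hother]
        have hd : qs q n ∣ n := ⟨qr q n, r1.symm⟩
        have hdiv : n / qs q n = qr q n := by
          conv_lhs => rw [← r1]
          have hpos : 0 < qs q n := r4
          have : qs q (qs q n * qr q n) = qs q n := by rw [r1]
          rw [this]
          exact Nat.mul_div_cancel_left _ hpos
        rw [if_pos hd, hdiv]
      · symm
        apply Finset.sum_eq_zero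
        intro k hk
        apply hother k hk
        rintro rfl
        exact hqs hk
  rw [e3]
  exact e2

theorem tm_TT (Q : ℕ) (w : ℕ → ℝ) (n : ℕ) : TT Q w 0 n = WW Q w n := by
  unfold TT WW
  congr 1
  apply Finset.filter_true_of_mem
  intro c hc
  have := (Finset.mem_Icc.1 hc).1
  exact_mod_cast (by omega : 0 < c)

theorem tm_h {T : ℝ} {ρ : ℝ → ℝ} (hρ : Ker T ρ) {C : ℝ}
    (hC : ∀ u : ℝ, 0 < u → |sgm ρ u| ≤ C / u) {N : ℕ} (hN : 1 ≤ N) {n : ℕ} (hn : N ≤ n) {k : ℕ}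
    (hk : 1 ≤ k) (m : ℕ) :
    0 ≤ sgm ρ (((k * m : ℕ) : ℝ) * (2 / Real.sqrt N)) ^ 2 ∧
      sgm ρ (((k * m : ℕ) : ℝ) * (2 / Real.sqrt N)) ^ 2 ≤ 1 ∧
      sgm ρ (((k * m : ℕ) : ℝ) * (2 / Real.sqrt N)) ^ 2 * m ^ 2 ≤ C ^ 2 * n := by
  have hN0 : (0 : ℝ) < N := by exact_mod_cast (by omega : 0 < N)
  have hsN : 0 < Real.sqrt N := Real.sqrt_pos.2 hN0
  have hss : Real.sqrt N ^ 2 = N := Real.sq_sqrt hN0.le
  have g1 := (kh_zero hρ).2 (((k * m : ℕ) : ℝ) * (2 / Real.sqrt N))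
  have hNn : (N : ℝ) ≤ n := by exact_mod_cast hn
  refine ⟨sq_nonneg _, ?_, ?_⟩
  · rw [← sq_abs]
    exact pow_le_one₀ (abs_nonneg _) g1
  · rcases Nat.eq_zero_or_pos m with hm | hm
    · subst hm
      simp only [Nat.cast_zero, ne_eq, OfNat.ofNat_ne_zero, not_false_eq_true, zero_pow, mul_zero]
      positivity
    · have hkm : 0 < k * m := Nat.mul_pos (by omega) hm
      have hkm0 : (0 : ℝ) < ((k * m : ℕ) : ℝ) := by exact_mod_cast hkm
      have g2 := hC (((k * m : ℕ) : ℝ) * (2 / Real.sqrt N)) (by positivity)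
      have g3 : |sgm ρ (((k * m : ℕ) : ℝ) * (2 / Real.sqrt N))| * ((k * m : ℕ) : ℝ) ≤
          C * (Real.sqrt N / 2) := by
        calc |sgm ρ (((k * m : ℕ) : ℝ) * (2 / Real.sqrt N))| * ((k * m : ℕ) : ℝ)
            ≤ C / (((k * m : ℕ) : ℝ) * (2 / Real.sqrt N)) * ((k * m : ℕ) : ℝ) :=
              mul_le_mul_of_nonneg_right g2 hkm0.le
          _ = C * (Real.sqrt N / 2) := by field_simp
      have hmk : (m : ℝ) ≤ ((k * m : ℕ) : ℝ) := by
        have : m ≤ k * m := Nat.le_mul_of_pos_left m (by omega)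
        exact_mod_cast this
      have g4 : |sgm ρ (((k * m : ℕ) : ℝ) * (2 / Real.sqrt N))| * m ≤ C * (Real.sqrt N / 2) :=
        (mul_le_mul_of_nonneg_left hmk (abs_nonneg _)).trans g3
      calc sgm ρ (((k * m : ℕ) : ℝ) * (2 / Real.sqrt N)) ^ 2 * m ^ 2
          = (|sgm ρ (((k * m : ℕ) : ℝ) * (2 / Real.sqrt N))| * m) ^ 2 := by rw [mul_pow, sq_abs]
        _ ≤ (C * (Real.sqrt N / 2)) ^ 2 := pow_le_pow_left₀ (by positivity) g4 2
        _ = C ^ 2 * N / 4 := by rw [mul_pow, div_pow, hss]; ring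
        _ ≤ C ^ 2 * N := by
            have : 0 ≤ C ^ 2 * N := by positivity
            linarith
        _ ≤ C ^ 2 * n := mul_le_mul_of_nonneg_left hNn (sq_nonneg _)

theorem gHS_vv {T : ℝ} {ρ : ℝ → ℝ} (hρ : Ker T ρ) {δ : ℝ} (h0 : 0 < δ) (h1 : δ < 1 / 4) {ε : ℝ}
    (hε : 0 < ε) (C₀ : ℝ) (X : ℕ) : ∀ ε₂ : ℝ, 0 < ε₂ → ∃ N₀ : ℕ, ∀ N : ℕ, N₀ ≤ N →
    ∀ (q : ℕ) [NeZero q] (χ : DirichletCharacter ℂ q), PQ χ → ∀ a : ℕ → ℕ → ℝ,
    (∀ k ∈ QI q X, ShC q (zz (N * q ^ 2)) (KA ε₂ (N * q ^ 2)) (a k) ∧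
      cnC q (zz (N * q ^ 2)) (KA ε₂ (N * q ^ 2)) (a k) ≤ C₀) →
    gHS N (QC q δ ε₂ (N * q ^ 2) X) (tw χ (vv q δ ε₂ (N * q ^ 2) X a)) ρ ≤
      1 / Real.pi * ((1 / 2 + 1 / (1 - 2 * δ)) *
        ∑ k ∈ QI q X, cnC q (zz (N * q ^ 2)) (KA ε₂ (N * q ^ 2)) (a k)) + ε := by
  intro ε₂ hε₂
  obtain ⟨C, hC⟩ := hρ.dec
  have hX0 : (0 : ℝ) < (X : ℝ) + 1 := by positivity
  obtain ⟨N₀, hN₀⟩ := high_genC h0 h1 (ε := Real.pi * ε / (X + 1))
    (div_pos (mul_pos Real.pi_pos hε) hX0) C₀ (C ^ 2)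
  refine ⟨max N₀ 1, fun N hN q _ χ hχ a ha => ?_⟩
  have hq : 1 ≤ q := Nat.one_le_iff_ne_zero.2 (NeZero.ne q)
  have hq2 : 0 < q ^ 2 := by positivity
  have hNn : N ≤ N * q ^ 2 := Nat.le_mul_of_pos_right _ hq2
  have hN1 : 1 ≤ N := (le_max_right _ _).trans hN
  have hNq : N₀ ≤ N * q ^ 2 := ((le_max_left _ _).trans hN).trans hNn
  generalize hn : N * q ^ 2 = n at *
  have key : ∀ k ∈ QI q X,
      Summable (fun m : ℕ => if m.Coprime q then
        WW (QA (MM δ n) 2 (KA ε₂ n)) (wAC q (zz n) (MM δ n) 2 (KA ε₂ n) (a k)) m ^ 2 *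
          sgm ρ (((k * m : ℕ) : ℝ) * (2 / Real.sqrt N)) ^ 2 / m else 0) ∧
      ∑' m : ℕ, (if m.Coprime q then
        WW (QA (MM δ n) 2 (KA ε₂ n)) (wAC q (zz n) (MM δ n) 2 (KA ε₂ n) (a k)) m ^ 2 *
          sgm ρ (((k * m : ℕ) : ℝ) * (2 / Real.sqrt N)) ^ 2 / m else 0) ≤
        (1 / 2 + 1 / (1 - 2 * δ)) * cnC q (zz n) (KA ε₂ n) (a k) + Real.pi * ε / (X + 1) := by
    intro k hk
    exact hN₀ n hNq q hq (KA ε₂ n) (a k) (ha k hk).1.sup (ha k hk).2
      (fun m => sgm ρ (((k * m : ℕ) : ℝ) * (2 / Real.sqrt N)) ^ 2)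
      (fun m => tm_h hρ hC hN1 hNn (tm_QI.1 hk).1.1 m)
  have hsum := tm_hasSum hq X
    (fun k m => 1 / Real.pi * (if m.Coprime q then
        WW (QA (MM δ n) 2 (KA ε₂ n)) (wAC q (zz n) (MM δ n) 2 (KA ε₂ n) (a k)) m ^ 2 *
          sgm ρ (((k * m : ℕ) : ℝ) * (2 / Real.sqrt N)) ^ 2 / m else 0))
    (fun k hk => (key k hk).1.mul_left _)
    (fun k m hm => by simp only [hm, if_false, mul_zero])
    (fun k => by simp)
    (fun m : ℕ => ‖gT (QC q δ ε₂ n X) (tw χ (vv q δ ε₂ n X a)) 0 m‖ ^ 2 *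
      sgm ρ (m * (2 / Real.sqrt N)) ^ 2 / (Real.pi * m))
    (by simp)
    (by
      intro m hm
      have hm0 : (m : ℤ) ≠ 0 := by exact_mod_cast (by omega : m ≠ 0)
      have hgT := gT_vv hχ δ ε₂ n X a (fun k hk => (ha k hk).1) 0 hm0
      rw [Int.natAbs_natCast, zero_div, tm_TT] at hgT
      obtain ⟨r1, r2, r3, r4, r5⟩ := qs_qr (q := q) (m := m) hq hm
      simp only [hgT]
      split_ifs with hqs
      · have hk0 : (qs q m : ℝ) ≠ 0 := by exact_mod_cast (by omega : qs q m ≠ 0)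
        have hd0 : (qr q m : ℝ) ≠ 0 := by exact_mod_cast (by omega : qr q m ≠ 0)
        have hcast : (m : ℝ) = (qs q m : ℝ) * (qr q m : ℝ) := by
          rw [← Nat.cast_mul, r1]
        have hcast2 : (((qs q m * qr q m : ℕ)) : ℝ) = (m : ℝ) := by rw [r1]
        rw [hcast2]
        have hpi := Real.pi_ne_zero
        change (qs q m : ℝ) * WW (QA (MM δ n) 2 (KA ε₂ n))
          (wAC q (zz n) (MM δ n) 2 (KA ε₂ n) (a (qs q m))) (qr q m) ^ 2 *
          sgm ρ (m * (2 / Real.sqrt N)) ^ 2 / (Real.pi * m) = _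
        generalize sgm ρ (m * (2 / Real.sqrt N)) = s
        rw [hcast]
        field_simp
      · simp)
  have hval : gHS N (QC q δ ε₂ n X) (tw χ (vv q δ ε₂ n X a)) ρ = _ := hsum.tsum_eq
  rw [hval]
  have hcard : ((QI q X).card : ℝ) ≤ X := by
    have h1 : (QI q X).card ≤ X := by
      unfold QI
      refine (Finset.card_filter_le _ _).trans ?_
      rw [Nat.card_Icc]
      omega
    exact_mod_cast h1
  have hpi := Real.pi_pos
  calc ∑ k ∈ QI q X, ∑' m : ℕ, 1 / Real.pi * (if m.Coprime q then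
        WW (QA (MM δ n) 2 (KA ε₂ n)) (wAC q (zz n) (MM δ n) 2 (KA ε₂ n) (a k)) m ^ 2 *
          sgm ρ (((k * m : ℕ) : ℝ) * (2 / Real.sqrt N)) ^ 2 / m else 0)
      ≤ ∑ k ∈ QI q X, (1 / Real.pi * ((1 / 2 + 1 / (1 - 2 * δ)) *
          cnC q (zz n) (KA ε₂ n) (a k)) + ε / (X + 1)) := by
        refine Finset.sum_le_sum fun k hk => ?_
        rw [tsum_mul_left]
        calc _ ≤ 1 / Real.pi * ((1 / 2 + 1 / (1 - 2 * δ)) * cnC q (zz n) (KA ε₂ n) (a k) +
              Real.pi * ε / (X + 1)) := mul_le_mul_of_nonneg_left (key k hk).2 (by positivity)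
          _ = _ := by field_simp
    _ = 1 / Real.pi * ((1 / 2 + 1 / (1 - 2 * δ)) * ∑ k ∈ QI q X,
          cnC q (zz n) (KA ε₂ n) (a k)) + (QI q X).card * (ε / (X + 1)) := by
        rw [Finset.sum_add_distrib, Finset.sum_const, nsmul_eq_mul, ← Finset.mul_sum,
          ← Finset.mul_sum]
    _ ≤ _ := by
        have : ((QI q X).card : ℝ) * (ε / (X + 1)) ≤ ε := by
          calc ((QI q X).card : ℝ) * (ε / (X + 1)) ≤ (X + 1) * (ε / (X + 1)) :=
                mul_le_mul_of_nonneg_right (by linarith) (by positivity)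
            _ = ε := by field_simp
        linarith

end Pool.Agent.TK
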